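import Pool.Agent.P.MP_9321be_ag.SB.Iface
import Pool.Agent.P.MP_9321be_ag.SG.All
import Pool.Agent.P.MP_9321be_ag.SN.Main

/-!
The link with the computation of the zeta function.
-/

set_option autoImplicit false

namespace Pool.Agent.P.MP_9321be_ag.SB

open MvPolynomial ND NC SN Filter Topology SM

theorem main2 (hW : S_WEYL2) {n : ℕ} {f : MvPolynomial (Fin n) ℂ} {h : Fin n → ℝ}
    (D : SG.Dat f h) (hn : Nondeg f) {b : Polynomial ℂ} (hb : MRel f b) :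
    b.eval (-(D.α : ℂ)) = 0 := by
  by_contra hne
  obtain ⟨g, g0, hg⟩ := hb
  have h1 := (SG.s_S2 n f h D).2 _ _ (by simpa using hne) (SG.s_G0 n f g h D).1
    (hW n f g h b D.α _ D.B0 hg SG.Dat.cl_B0 (SG.s_S2 n f h D).1)
  have h2 : e D.P0 ∈ SG.EE f h (fun i => D.R0 ∩ SG.DJ D.I {i}) D.B0 := by
    have := sub_mem h1 (SG.EE_of_mem (SG.s_G0 n f g h D).2)
    rw [sub_sub_cancel] at this
    exact (Submodule.smul_mem_iff _ g0).1 this
  obtain ⟨z, z1, z2⟩ := SG.s_X2 n f h D hn (SG.s_R2 n f h D (SG.s_X1 n f h D hn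
    (SG.s_R1 n f h D h2)))
  obtain ⟨x, x1, x2⟩ := SG.s_CHI n f h D hn
  exact SG.s_EV n f h D x x1 x2 z z1 z2

theorem good_sus (hW : S_WEYL2) (hM : S_M0) (hS : S_SUS) (hE : S_EQV) {n N : ℕ} {ρ : Type}
    [Fintype ρ] {f : MvPolynomial (Fin n) ℂ} (hf : f ≠ 0) (h0 : coeff 0 f = 0)
    (hd : ∀ i, eval 0 (pderiv i f) = 0) {F : MvPolynomial (Fin N) ℂ} (hn : Nondeg F)
    (q : Eqv (hyp ρ f) F) {β : ℚ} (b1 : 1 < β + Fintype.card ρ)
    (b2 : 0 < β → ¬ IsBSRoot f (-(β : ℂ))) :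
    Rt lefInv (· ≠ β + Fintype.card ρ) (zeta (hyp ρ f)) := by
  classical
  obtain ⟨Φ, ℓ, a1, a2, a3, a4, a5, a6, a7⟩ := pack q
  have a8 := eventually_of_mem (Φ.open_source.mem_nhds a4) a7
  have z : coeff 0 F = 0 := by simpa [a5, h0, constantCoeff_eq] using a7 0 a4
  rw [q.zeta_eq]
  refine good z hn b1.ne' fun u ω h' s J c1 c2 c3 => by_contra fun hcon => ?_
  have c4 := strict f _ hf (grad_zero f _ h0 hd _ Φ a1 a5 a2 _ a3.cexp' a8) _ Φ a1 a5 _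
    a3.cexp' (Complex.exp_ne_zero _) a8 u c1.u0 c1.u1
  have c5 : 0 < β := by
    rw [c2] at c4
    exact_mod_cast (show (0 : ℝ) < β by push_cast at c4; linarith)
  refine b2 c5 fun b hb => ?_
  obtain ⟨Ω⟩ := SG.s_FAN N F h' z c1.h0 c1.gen
  obtain ⟨D, hD⟩ := SG.s_LINK N F h' Ω u ω s J _ c1 c3 (fun a ha => hcon ⟨a, ha⟩) c2
  have := main2 hW D hn (hE _ _ _ F _ q (hS _ ρ f b (hM n f b hb)))
  rw [hD, Polynomial.eval_comp] at this
  simpa using this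

theorem main (hW : S_WEYL2) (hM : S_M0) (hS : S_SUS) (hE : S_EQV) (hR : S_REN) {n : ℕ}
    {τ κ : Type} [Fintype τ] [Fintype κ] {f : MvPolynomial (Fin n) ℂ} (hf : f ≠ 0)
    (h0 : coeff 0 f = 0) {F : MvPolynomial τ ℂ} (hn : Nondeg F) (h : Eqv (sq κ f) F) :
    StrongMonodromyConjecture f := by
  have h1 : IsBSRoot f (-((1 : ℚ) : ℂ)) := by simpa using SG.s_ONE n f hf h0
  have key : Rt lefInv (fun α => IsBSRoot f (-(α : ℂ))) (zeta f) := by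
    by_cases hd : ∃ i, eval 0 (pderiv i f) ≠ 0
    · obtain ⟨i, hi⟩ := hd
      exact (rt_smooth f h0 i hi).mono fun α e => e ▸ h1
    push Not at hd
    refine alg lef_mul_inv _ h1 (zeta f) (fun k => zeta (hyp (κ ⊕ Fin k) f))
      (fun k => Fintype.card (κ ⊕ Fin k)) (fun k => by simp) (fun k p hp => den_sus f hp)
      fun k β b1 b2 => ?_
    obtain ⟨r1, r2⟩ := hR _ _ (Fintype.equivFin _) _
      (nondeg_sq (κ := Fin k ⊕ (κ ⊕ Fin k)) hn)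
    exact good_sus hW hM hS hE hf h0 hd r1 (((eqv_sus f k).trans h.sq).trans r2) b1 b2
  obtain ⟨S, h2, h3⟩ := key
  refine ⟨S, fun q hq => ⟨(h2 q hq).1, (h2 q hq).2.1⟩, h3, fun q hq => ?_⟩
  simpa using (h2 q hq).2.2

end Pool.Agent.P.MP_9321be_ag.SB
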