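import Pool.Agent.P.MP_9321be_ag.SB.Iface

/-! Step CR. -/

set_option autoImplicit false
set_option linter.unusedSectionVars false

namespace Pool.Agent.P.MP_9321be_ag.SB

open Finset Filter Topology SM

theorem p_CR :
    S_CR := by
  intro σ τ _ _ _ Ψ P i
  refine ⟨?_, fun j => ?_⟩
  · classical
    have hX : ∀ j, pb Ψ (MvPolynomial.X j) = mk (Ψ j) := fun j => by simp [pb]
    induction P using MvPolynomial.induction_on with
    | C c =>
      rw [← MvPolynomial.algebraMap_eq, AlgHom.commutes, Derivation.map_algebraMap]
      simp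
    | add p q h1 h2 => simp only [map_add, h1, h2, add_mul, sum_add_distrib]
    | mul_X p j h =>
      simp only [map_mul, Derivation.leibniz, smul_eq_mul, map_add, h, hX, add_mul,
        sum_add_distrib, mul_assoc]
      refine congrArg₂ _ ?_ (Finset.mul_sum _ _ _)
      rw [sum_eq_single j (fun k _ e => by simp [MvPolynomial.pderiv_X_of_ne e.symm]) (by simp)]
      simp
  · have e : (if i = j then 1 else 0 : Ge σ) = mk (if i = j then 1 else 0) := by
      split_ifs <;> simp
    rw [dG_mk, e, mk_eq]
    refine Eventually.of_forall fun z => ?_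
    have h := (ContinuousLinearMap.proj (R := ℂ) (φ := fun _ : σ => ℂ) j).fderiv (x := z)
    refine (congrArg (fun L : (σ → ℂ) →L[ℂ] ℂ => L (Pi.single i 1)) h).trans ?_
    by_cases c : i = j
    · simp [c]
    · simp [c, Ne.symm c]

end Pool.Agent.P.MP_9321be_ag.SB
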