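import Pool.Agent.P.MP_9321be_ag.SB.Iface

/-! Step EQV. -/

set_option autoImplicit false
set_option linter.unusedSectionVars false

namespace Pool.Agent.P.MP_9321be_ag.SB

open Finset Filter Topology SM

theorem sbeqv_inv {σ τ : Type} [Fintype σ] [DecidableEq σ] [Fintype τ] [DecidableEq τ]
    {Φ : (σ → ℂ) → τ → ℂ} {Ψ : (τ → ℂ) → σ → ℂ} {z : τ → ℂ} (h1 : DifferentiableAt ℂ Ψ z)
    (h2 : DifferentiableAt ℂ Φ (Ψ z)) (h3 : Φ (Ψ z) = z) (h4 : ∀ᶠ y in 𝓝 (Ψ z), Ψ (Φ y) = y)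
    (j k : σ) : ∑ i, fderiv ℂ Φ (Ψ z) (Pi.single j 1) i *
      fderiv ℂ (fun z => Ψ z k) z (Pi.single i 1) = if j = k then 1 else 0 := by
  have e1 : fderiv ℂ (Ψ ∘ Φ) (Ψ z) = fderiv ℂ id (Ψ z) := EventuallyEq.fderiv_eq h4
  rw [fderiv_comp _ (h3.symm ▸ h1) h2, h3, fderiv_id] at e1
  have e2 := congrArg (fun L : (σ → ℂ) →L[ℂ] σ → ℂ => L (Pi.single j 1) k) e1
  simp only [ContinuousLinearMap.comp_apply, ContinuousLinearMap.id_apply] at e2
  rw [pi_eq_sum_univ' (fderiv ℂ Φ (Ψ z) (Pi.single j 1)), map_sum, Finset.sum_apply,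
    Pi.single_apply] at e2
  simp only [eq_comm (a := j), ← e2, fderiv_apply h1]
  simp

theorem sbeqv_sum {σ τ R : Type} [Fintype σ] [DecidableEq σ] [Fintype τ] [CommRing R]
    {c d : σ → τ → R} (h : ∀ j k, ∑ i, c j i * d k i = if j = k then 1 else 0) (a : σ → R)
    (j : σ) : a j = ∑ i, c j i * ∑ k, a k * d k i := by
  simp only [mul_sum, mul_left_comm (c _ _)]
  rw [sum_comm]
  simp [← mul_sum, h]

theorem p_EQV (hHOM : S_HOM) (hUNIT : S_UNIT) (hTRUNC : S_TRUNC) (hCR : S_CR) :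
    S_EQV := by
  rintro σ τ _ _ _ _ G F b ⟨Φ, Ψ, l, hΦ, hΨ, hl, Φ0, Ψ0, e1, e2, e3⟩ ⟨g, g0, hg⟩
  have t : Tendsto Ψ (𝓝 0) (𝓝 0) := Ψ0 ▸ hΨ.continuousAt.tendsto
  let ψ : σ → An τ := fun j => ⟨fun z => Ψ z j, analyticAt_pi_iff.1 hΨ j⟩
  let c : σ → τ → An τ := fun j i => ⟨fun z => fderiv ℂ Φ (Ψ z) (Pi.single j 1) i,
    analyticAt_pi_iff.1 (((ContinuousLinearMap.apply ℂ (τ → ℂ)
      (Pi.single j 1 : σ → ℂ)).analyticAt _).comp (hΦ.fderiv.comp_of_eq hΨ Ψ0)) i⟩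
  have k1 : ∀ j k, ∑ i, mk (c j i) * dG i (mk (ψ k)) = if j = k then 1 else 0 := fun j k => by
    simp only [dG_mk, ← map_mul, ← map_sum]
    rw [show (if j = k then 1 else 0 : Ge τ) = mk (if j = k then 1 else 0) by
      split_ifs <;> simp, mk_eq]
    filter_upwards [hΨ.eventually_analyticAt, t.eventually hΦ.eventually_analyticAt, e2,
      t.eventually e1.eventually_nhds] with z h1 h2 h3 h4
    have := sbeqv_inv h1.differentiableAt h2.differentiableAt h3 h4 j k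
    rw [AddSubmonoidClass.coe_finsetSum, Finset.sum_apply]
    refine this.trans ?_
    split_ifs <;> rfl
  have k2 := hHOM _ _ _ _ (pd σ) dG (pb ψ) (fun j i => mk (c j i)) (fun j a => by
    simp only [(hCR τ σ ψ a _).1]
    exact sbeqv_sum k1 (fun j => pb ψ (MvPolynomial.pderiv j a)) j) G g b hg
  have a1 : AnalyticAt ℂ (fun z => l (Ψ z)) 0 := hl.comp_of_eq hΨ Ψ0
  let u : An τ := ⟨fun z => Complex.exp (l (Ψ z)), a1.cexp'⟩
  let u' : An τ := ⟨fun z => Complex.exp (-l (Ψ z)), a1.neg.cexp'⟩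
  have k3 : mk u * mk u' = 1 := by
    rw [← map_mul, ← map_one mk, mk_eq]
    exact Eventually.of_forall fun z => (Complex.exp_add _ _).symm.trans (by simp)
  have k4 := hUNIT _ _ dG _ _ _ _ b k3 k2
  have k5 : mk u * pb ψ G = pb co F := by
    rw [pb, pb, AlgHom.comp_apply, AlgHom.comp_apply, ← map_mul, mk_eq]
    filter_upwards [e2, t.eventually e3] with z h1 h2
    rw [h1] at h2
    rw [aeval_val]
    exact (congrArg (Complex.exp (l (Ψ z)) * ·) (aeval_val ψ G z)).trans h2.symm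
  rw [k5] at k4
  refine hTRUNC τ F b _ (IsUnit.mul ?_ (IsUnit.of_mul_eq_one _ k3)) k4
  have g1 : (MvPolynomial.aeval ψ g).1 0 ≠ 0 := by
    rw [aeval_val]
    exact (congrArg (MvPolynomial.eval · g) Ψ0).trans_ne g0
  have a2 : AnalyticAt ℂ (MvPolynomial.aeval ψ g).1 0 := (MvPolynomial.aeval ψ g).2
  refine IsUnit.of_mul_eq_one (mk ⟨fun z => ((MvPolynomial.aeval ψ g).1 z)⁻¹, a2.inv g1⟩) ?_
  rw [pb, AlgHom.comp_apply, ← map_mul, ← map_one mk, mk_eq]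
  exact (a2.continuousAt.eventually_ne g1).mono fun z h => mul_inv_cancel₀ h

end Pool.Agent.P.MP_9321be_ag.SB
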