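import Pool.Agent.P.MP_9321be_ag.SB.Iface

/-! Step HOM. -/

set_option autoImplicit false
set_option linter.unusedSectionVars false

namespace Pool.Agent.P.MP_9321be_ag.SB

open Finset Filter Topology SM

section

variable {A A' ι' : Type} [CommRing A] [Algebra ℂ A] [CommRing A'] [Algebra ℂ A'] [Fintype ι']

theorem sbhom_EA (φ : A →+* A') (F : A) (y : Polynomial A) :
    (EA F y).map φ = EA (φ F) (y.map φ) := by
  simp [EA_apply, Polynomial.derivative_map]

theorem sbhom_dA (φ : A →+* A') (δ : Derivation ℂ A A) (δ' : ι' → Derivation ℂ A' A')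
    (c : ι' → A') (h : ∀ a, φ (δ a) = ∑ i, c i * δ' i (φ a)) (F : A) (y : Polynomial A) :
    (dA δ F y).map φ = ∑ i, Polynomial.C (c i) * dA (δ' i) (φ F) (y.map φ) := by
  induction y using Polynomial.induction_on' with
  | add p q h1 h2 => simp only [map_add, Polynomial.map_add, h1, h2, mul_add, sum_add_distrib]
  | monomial j a =>
    simp only [dA_monomial, Polynomial.map_sub, Polynomial.map_monomial, map_mul, h, mul_sub,
      sum_sub_distrib, Polynomial.C_mul_monomial, map_sum, sum_mul, mul_assoc]

theorem sbhom_aeval (φ : A →ₐ[ℂ] A') (F : A) (b : Polynomial ℂ) (y : Polynomial A) :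
    (Polynomial.aeval (EA F - 1) b y).map (φ : A →+* A') =
      Polynomial.aeval (EA (φ F) - 1) b (y.map (φ : A →+* A')) := by
  induction b using Polynomial.induction_on with
  | C a =>
    simp only [Polynomial.aeval_C, Module.algebraMap_end_apply]
    exact map_smul (Polynomial.mapAlgHom φ) a y
  | add p q h1 h2 => simp only [map_add, LinearMap.add_apply, Polynomial.map_add, h1, h2]
  | monomial n a h =>
    rw [pow_succ', mul_left_comm, map_mul, map_mul _ Polynomial.X, Polynomial.aeval_X,
      Polynomial.aeval_X, Module.End.mul_apply, Module.End.mul_apply, ← h]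
    simp only [LinearMap.sub_apply, Module.End.one_apply, Polynomial.map_sub, sbhom_EA]
    rfl

end

theorem p_HOM :
    S_HOM := by
  intro A A' ι ι' _ _ _ _ _ δ δ' φ c h F g b hb
  have st := GG_stab δ' (φ F)
  let M : Submodule A (Polynomial A) :=
    { carrier := {y | y.map (φ : A →+* A') ∈ GG δ' (φ F)}
      zero_mem' := by simp
      add_mem' := fun h1 h2 => by
        simpa only [Set.mem_ofPred_eq, Polynomial.map_add] using (GG δ' (φ F)).add_mem h1 h2
      smul_mem' := fun a y h1 => by
        simpa only [Set.mem_ofPred_eq, Polynomial.smul_eq_C_mul, Polynomial.map_mul,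
          Polynomial.map_C] using C_mul_mem ((φ : A →+* A') a) h1 }
  have hM : Stab δ F M := by
    refine ⟨?_, fun j y hy => ?_, fun y hy => ?_⟩
    · show (1 : Polynomial A).map (φ : A →+* A') ∈ GG δ' (φ F)
      rw [Polynomial.map_one]
      exact st.1
    · show (dA (δ j) F y).map (φ : A →+* A') ∈ GG δ' (φ F)
      rw [sbhom_dA (φ : A →+* A') (δ j) δ' (c j) (h j)]
      exact Submodule.sum_mem _ fun i _ => C_mul_mem _ (st.2.1 i _ hy)
    · show (EA F y).map (φ : A →+* A') ∈ GG δ' (φ F)
      rw [sbhom_EA]
      exact st.2.2 _ hy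
  have h1 : (Polynomial.aeval (EA F - 1) b (Polynomial.C g * Polynomial.X)).map
      (φ : A →+* A') ∈ GG δ' (φ F) := GG_le hM hb
  rw [sbhom_aeval, Polynomial.map_mul, Polynomial.map_C, Polynomial.map_X] at h1
  exact h1

end Pool.Agent.P.MP_9321be_ag.SB
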