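import Pool.Agent.P.MP_9321be_ag.SB.Iface

/-! Step KRULL. -/

set_option autoImplicit false
set_option linter.unusedSectionVars false

namespace Pool.Agent.P.MP_9321be_ag.SB

open Finset Filter Topology SM

theorem p_KRULL :
    S_KRULL := by
  intro A M _ _ _ _ I M0 N v hfg hv hle hk
  let P : Submodule A (M ⧸ N) := M0.map N.mkQ
  have hP : P.FG := hfg.map _
  have : Module.Finite A P := Module.Finite.iff_fg.mpr hP
  let x : P := ⟨N.mkQ v, Submodule.mem_map_of_mem hv⟩
  have hx : x ∈ (⨅ i : ℕ, I ^ i • ⊤ : Submodule A P) := by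
    rw [Submodule.mem_iInf]
    intro k
    obtain ⟨a, ha, b, hb, hab⟩ := Submodule.mem_sup.mp (hk k)
    have h1 : N.mkQ v ∈ (I ^ k • P : Submodule A (M ⧸ N)) := by
      have h2 : N.mkQ v = N.mkQ b := by
        rw [← hab, map_add]
        have : N.mkQ a = 0 := (Submodule.Quotient.mk_eq_zero N).mpr ha
        rw [this, zero_add]
      rw [h2]
      have h3 := Submodule.mem_map_of_mem (f := N.mkQ) hb
      rwa [Submodule.map_smul''] at h3
    exact (Submodule.mem_smul_top_iff (I ^ k) P x).mpr h1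
  obtain ⟨r, hr⟩ := (Ideal.mem_iInf_smul_pow_eq_bot_iff I x).mp hx
  refine ⟨r, r.2, ?_⟩
  have h4 : (r : A) • N.mkQ v = N.mkQ v := congrArg Subtype.val hr
  rw [← Submodule.Quotient.mk_eq_zero N]
  change N.mkQ ((1 - (r : A)) • v) = 0
  rw [map_smul, sub_smul, one_smul, h4, sub_self]

end Pool.Agent.P.MP_9321be_ag.SB
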