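import Pool.Agent.P.MP_9321be_ag.SB.Iface

/-! Step OBIG. -/

set_option autoImplicit false
set_option linter.unusedSectionVars false

namespace Pool.Agent.P.MP_9321be_ag.SB

open Finset Filter Topology SM

theorem sbobig_comp {σ : Type} [Fintype σ] (P : MvPolynomial σ ℂ) (N : ℕ)
    (H : SN.Apx N (fun y => MvPolynomial.eval y P) 0) {k : ℕ} (hk : k < N) :
    MvPolynomial.homogeneousComponent k P = 0 := by
  refine MvPolynomial.funext fun z => ?_
  have key : Polynomial.X ^ N ∣ ∑ d ∈ P.support,
      Polynomial.monomial d.degree (MvPolynomial.eval z (MvPolynomial.monomial d (P.coeff d))) := by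
    refine SN.pow_dvd_of_isBigO ?_
    have h2 : Tendsto (fun s : ℂ => s • z) (𝓝 0) (𝓝 0) := by
      have : Continuous fun s : ℂ => s • z := by fun_prop
      simpa using this.tendsto 0
    have h1 : (fun s : ℂ => ‖s • z‖ ^ N) =O[𝓝 0] fun s : ℂ => ‖s‖ ^ N := by
      refine Asymptotics.IsBigO.of_bound (‖z‖ ^ N) (Eventually.of_forall fun s => ?_)
      simp [norm_smul, mul_pow, mul_comm]
    refine ((H.comp_tendsto h2).trans h1).congr_left fun s => ?_
    simp only [Function.comp, Pi.zero_apply, sub_zero, Polynomial.eval_finsetSum,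
      Polynomial.eval_monomial]
    conv_lhs => rw [P.as_sum, map_sum]
    refine sum_congr rfl fun d _ => ?_
    simp only [MvPolynomial.eval_monomial, Finsupp.prod, Pi.smul_apply, smul_eq_mul, mul_pow,
      prod_mul_distrib, prod_pow_eq_pow_sum, Finsupp.degree_apply]
    ring
  have h3 := Polynomial.X_pow_dvd_iff.1 key k hk
  rw [MvPolynomial.homogeneousComponent_apply, map_sum, map_zero, sum_filter]
  rw [Polynomial.finsetSum_coeff] at h3
  refine Eq.trans (sum_congr rfl fun d _ => ?_) h3
  rw [Polynomial.coeff_monomial]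

theorem p_OBIG :
    S_OBIG := by
  intro σ _ P N H
  have h1 : MvPolynomial.idealOfVars σ ℂ ≤ mx σ := by
    rw [Ideal.span_le]
    rintro _ ⟨i, rfl⟩
    simp [mx]
  refine Ideal.pow_right_mono h1 N ((MvPolynomial.mem_pow_idealOfVars_iff N P).2 fun d hd => ?_)
  by_contra hc
  have h2 := congrArg (MvPolynomial.coeff d) (sbobig_comp P N H (not_le.1 hc))
  rw [MvPolynomial.coeff_homogeneousComponent] at h2
  simp at h2
  exact (MvPolynomial.mem_support_iff.1 hd) h2

end Pool.Agent.P.MP_9321be_ag.SB
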