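import Pool.Agent.P.MP_9321be_ag.SB.Iface

/-! Step SUS. -/

set_option autoImplicit false
set_option linter.unusedSectionVars false

namespace Pool.Agent.P.MP_9321be_ag.SB

open Finset Filter Topology SM

theorem sbsus_aeval {V V' : Type} [AddCommGroup V] [Module ℂ V] [AddCommGroup V'] [Module ℂ V']
    (E : Module.End ℂ V) (E' : Module.End ℂ V') (m : V →ₗ[ℂ] V') (G : Submodule ℂ V')
    (W : V → Prop) (hG : ∀ y ∈ G, E' y ∈ G) (hW : ∀ w, W w → W (E w))
    (h : ∀ w, W w → m (E w) - E' (m w) ∈ G) (b : Polynomial ℂ) :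
    (∀ y ∈ G, Polynomial.aeval E' b y ∈ G) ∧
      ∀ w, W w → m (Polynomial.aeval E b w) - Polynomial.aeval E' b (m w) ∈ G := by
  induction b using Polynomial.induction_on with
  | C a => exact ⟨fun y hy => by simpa using G.smul_mem a hy, fun w _ => by simp⟩
  | add p q h1 h2 =>
    refine ⟨fun y hy => by simpa using G.add_mem (h1.1 y hy) (h2.1 y hy), fun w hw => ?_⟩
    have := G.add_mem (h1.2 w hw) (h2.2 w hw)
    simp only [map_add, LinearMap.add_apply]
    convert this using 1
    abel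
  | monomial n a h1 =>
    simp only [pow_succ, ← mul_assoc, map_mul _ _ Polynomial.X, Polynomial.aeval_X,
      Module.End.mul_apply]
    refine ⟨fun y hy => h1.1 _ (hG y hy), fun w hw => ?_⟩
    have := G.add_mem (h1.2 _ (hW w hw)) (h1.1 _ (h w hw))
    rwa [map_sub, sub_add_sub_cancel] at this

section

variable {A B : Type} [CommRing A] [Algebra ℂ A] [CommRing B] [Algebra ℂ B] (r : A →ₐ[ℂ] B)

theorem sbsus_d1 (δ : Derivation ℂ A A) (δ' : Derivation ℂ B B) (f : A) (F : B)
    (h : ∀ a, δ' (r a) = r (δ a)) (h' : δ' F = r (δ f)) (w : Polynomial A) :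
    (dA δ f w).map (r : A →+* B) = dA δ' F (w.map (r : A →+* B)) := by
  induction w using Polynomial.induction_on' with
  | add p q h1 h2 => simp only [map_add, Polynomial.map_add, h1, h2]
  | monomial j c => simp [dA_monomial, h, h']

theorem sbsus_d2 (δ' : Derivation ℂ B B) (F : B) (h : ∀ a, δ' (r a) = 0) (w : Polynomial A) :
    dA δ' F (w.map (r : A →+* B)) =
      -(Polynomial.C (δ' F) * Polynomial.X * w.map (r : A →+* B)) := by
  induction w using Polynomial.induction_on' with
  | add p q h1 h2 => simp only [map_add, Polynomial.map_add, h1, h2]; ring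
  | monomial j c =>
    simp [dA_monomial, h, mul_assoc, Polynomial.X_mul_monomial, Polynomial.C_mul_monomial]

theorem sbsus_main {ι ι' ρ : Type} [Fintype ρ] (δ : ι → Derivation ℂ A A)
    (δ' : ι' → Derivation ℂ B B) (e : ι → ι') (iu iv : ρ → ι') (u v : ρ → B) (f g : A) (F : B)
    (hF : F = r f + ∑ j, u j * v j) (h1 : ∀ i a, δ' (e i) (r a) = r (δ i a))
    (h2 : ∀ i, δ' (e i) F = r (δ i f)) (h3 : ∀ j a, δ' (iu j) (r a) = 0)
    (h4 : ∀ j a, δ' (iv j) (r a) = 0) (h5 : ∀ j, δ' (iu j) F = v j) (h6 : ∀ j, δ' (iv j) F = u j)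
    (h7 : ∀ j, δ' (iv j) (v j) = 1) (b : Polynomial ℂ) (H : MR δ f b g) :
    MR δ' F (b.comp (Polynomial.X + Polynomial.C (Fintype.card ρ : ℂ))) (r g) := by
  obtain ⟨s1, s2, s3⟩ := GG_stab δ' F
  have hE : ∀ w : Polynomial A, (EA f w).map (r : A →+* B) = EA F (w.map (r : A →+* B)) -
      ∑ j, Polynomial.C (v j) * dA (δ' (iv j)) F (w.map (r : A →+* B)) := fun w => by
    simp only [sbsus_d2 r _ F (h4 _), h6]
    simp only [EA_apply, hF, Polynomial.map_sub, Polynomial.map_mul, Polynomial.map_X,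
      Polynomial.map_C, Polynomial.derivative_map, map_add, map_sum, map_mul, add_mul,
      Finset.sum_mul, mul_neg, Finset.sum_neg_distrib, RingHom.coe_coe]
    rw [Finset.sum_congr rfl fun j _ => show Polynomial.C (v j) * (Polynomial.C (u j) *
      Polynomial.X * w.map (r : A →+* B)) = Polynomial.C (u j) * Polynomial.C (v j) *
      Polynomial.X * w.map (r : A →+* B) by ring]
    ring
  have hE' : ∀ w : Polynomial A, w.map (r : A →+* B) ∈ GG δ' F →
      (EA f w).map (r : A →+* B) ∈ GG δ' F := fun w hw => by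
    rw [hE]
    exact sub_mem (s3 _ hw) (sum_mem fun j _ => C_mul_mem _ (s2 _ _ hw))
  let M : Submodule A (Polynomial A) :=
    { carrier := {w | w.map (r : A →+* B) ∈ GG δ' F}
      zero_mem' := by simp
      add_mem' := fun h h' => by simpa using add_mem h h'
      smul_mem' := fun a w hw => by
        simpa [Polynomial.smul_eq_C_mul] using C_mul_mem (r a) hw }
  have hM : Stab δ f M := ⟨by simpa [M] using s1, fun i y hy => by
    have := s2 (e i) _ hy
    rwa [← sbsus_d1 r (δ i) _ f F (h1 i) (h2 i)] at this, hE'⟩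
  let W : Polynomial A → Prop := fun w =>
    ∃ w', w = Polynomial.X * w' ∧ w'.map (r : A →+* B) ∈ GG δ' F
  have k1 : ∀ y ∈ (GG δ' F).restrictScalars ℂ, (EA F - 1 + algebraMap ℂ
      (Module.End ℂ (Polynomial B)) (Fintype.card ρ : ℂ)) y ∈ (GG δ' F).restrictScalars ℂ :=
    fun y hy => by
    simp only [LinearMap.sub_apply, LinearMap.add_apply, Module.End.one_apply,
      Module.algebraMap_end_apply]
    exact add_mem (sub_mem (s3 y hy) hy) (Submodule.smul_mem _ _ hy)
  have k2 : ∀ w, W w → W ((EA f - 1) w) := by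
    rintro _ ⟨w, rfl, hw⟩
    refine ⟨EA f w, ?_, hE' w hw⟩
    simp [EA_X_mul, mul_add]
  have k3 : ∀ w, W w → (Polynomial.mapAlgHom r).toLinearMap ((EA f - 1) w) -
      (EA F - 1 + algebraMap ℂ (Module.End ℂ (Polynomial B)) (Fintype.card ρ : ℂ))
      ((Polynomial.mapAlgHom r).toLinearMap w) ∈ (GG δ' F).restrictScalars ℂ := by
    rintro _ ⟨w, rfl, hw⟩
    have h8 : ∀ j, Polynomial.C (v j) * (Polynomial.X * w).map (r : A →+* B) ∈ GG δ' F :=
      fun j => by
      have := neg_mem (s2 (iu j) _ hw)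
      rw [sbsus_d2 r _ F (h3 j), h5, neg_neg, mul_assoc] at this
      simpa using this
    have h9 := neg_mem (sum_mem (t := Finset.univ) fun j _ => s2 (iv j) _ (h8 j))
    simp only [dA_C_mul, h7, map_one, one_mul, Finset.sum_add_distrib, Finset.sum_const,
      Finset.card_univ] at h9
    simp only [LinearMap.sub_apply, LinearMap.add_apply, Module.End.one_apply, map_sub,
      AlgHom.toLinearMap_apply, Polynomial.coe_mapAlgHom, hE, Module.algebraMap_end_apply,
      Nat.cast_smul_eq_nsmul, Submodule.restrictScalars_mem]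
    convert h9 using 1
    abel
  have key := (sbsus_aeval _ _ _ _ W k1 k2 k3 b).2 (Polynomial.C g * Polynomial.X)
    ⟨Polynomial.C g, mul_comm _ _, by simpa using C_mul_mem (r g) s1⟩
  have h0 : (Polynomial.aeval (EA f - 1) b (Polynomial.C g * Polynomial.X)).map (r : A →+* B) ∈
    GG δ' F := GG_le hM H
  simp only [AlgHom.toLinearMap_apply, Polynomial.coe_mapAlgHom,
    Submodule.restrictScalars_mem] at key
  simpa [MR, Polynomial.aeval_comp] using sub_mem h0 key

end

theorem p_SUS :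
    S_SUS := by
  rintro σ ρ _ _ _ _ f b ⟨g, hg, H⟩
  have h0 : ∀ (j : ρ ⊕ ρ) (a : MvPolynomial σ ℂ),
      MvPolynomial.pderiv (Sum.inr j) (MvPolynomial.rename (Sum.inl : σ → σ ⊕ ρ ⊕ ρ) a) = 0 :=
    fun j a => MvPolynomial.pderiv_eq_zero_of_notMem_vars fun h => by
      simpa using MvPolynomial.mem_vars_rename _ _ h
  have h1 : ∀ (i : σ) (a : MvPolynomial σ ℂ),
      MvPolynomial.pderiv (Sum.inl i) (MvPolynomial.rename (Sum.inl : σ → σ ⊕ ρ ⊕ ρ) a) =
        MvPolynomial.rename Sum.inl (MvPolynomial.pderiv i a) :=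
    fun i a => MvPolynomial.pderiv_rename Sum.inl_injective i a
  refine ⟨MvPolynomial.rename Sum.inl g, by rwa [MvPolynomial.eval_rename],
    sbsus_main (MvPolynomial.rename Sum.inl) (pd σ) (pd (σ ⊕ ρ ⊕ ρ)) Sum.inl
      (fun j => Sum.inr (Sum.inl j)) (fun j => Sum.inr (Sum.inr j))
      (fun j => MvPolynomial.X (Sum.inr (Sum.inl j))) (fun j => MvPolynomial.X (Sum.inr (Sum.inr j)))
      f g _ rfl h1 (fun i => ?_) (fun j => h0 _) (fun j => h0 _) (fun j => ?_) (fun j => ?_)
      (fun j => by simp) b H⟩ <;>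
    simp [h0, h1, Pi.single_apply]

end Pool.Agent.P.MP_9321be_ag.SB
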