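import Pool.Agent.P.MP_9321be_ag.SB.Iface

/-! Step TRUNC. -/

set_option autoImplicit false
set_option linter.unusedSectionVars false

namespace Pool.Agent.P.MP_9321be_ag.SB

open Finset Filter Topology SM

theorem sbtrunc_semi {M M' : Type} [AddCommGroup M] [Module ℂ M] [AddCommGroup M'] [Module ℂ M']
    (T : M →ₗ[ℂ] M') (E : Module.End ℂ M) (E' : Module.End ℂ M') (h : ∀ y, T (E y) = E' (T y))
    (b : Polynomial ℂ) (y : M) : T (Polynomial.aeval E b y) = Polynomial.aeval E' b (T y) := by
  induction b using Polynomial.induction_on generalizing y with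
  | C a => simp
  | add p q h1 h2 => simp [h1, h2]
  | monomial n a ih =>
    rw [pow_succ, ← mul_assoc, map_mul, map_mul (Polynomial.aeval E'), Polynomial.aeval_X,
      Polynomial.aeval_X, Module.End.mul_apply, Module.End.mul_apply, ih, h]

section

variable {A A' ι : Type} [CommRing A] [Algebra ℂ A] [CommRing A'] [Algebra ℂ A']

theorem sbtrunc_lin (F g : A) (b : Polynomial ℂ) (y : Polynomial A) :
    Polynomial.aeval (EA F - 1) b (Polynomial.C g * y) =
      Polynomial.C g * Polynomial.aeval (EA F - 1) b y :=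
  (sbtrunc_semi (LinearMap.mulLeft ℂ (Polynomial.C g)) (EA F - 1) (EA F - 1)
    (fun y => by simp [EA_C_mul, mul_sub]) b y).symm

theorem sbtrunc_EA (φ : A →ₐ[ℂ] A') (F : A) (y : Polynomial A) :
    Polynomial.mapAlgHom φ (EA F y) = EA (φ F) (Polynomial.mapAlgHom φ y) := by
  simp [EA_apply, Polynomial.derivative_map]

theorem sbtrunc_le {δ : ι → Derivation ℂ A A} {δ' : ι → Derivation ℂ A' A'} (φ : A →ₐ[ℂ] A')
    (h : ∀ i a, δ' i (φ a) = φ (δ i a)) (F : A) : GG δ' (φ F) ≤
      Submodule.span A' (Polynomial.mapAlgHom φ '' (GG δ F : Set (Polynomial A))) := by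
  have hd : ∀ i y, Polynomial.mapAlgHom φ (dA (δ i) F y) =
      dA (δ' i) (φ F) (Polynomial.mapAlgHom φ y) := fun i y => by
    induction y using Polynomial.induction_on' with
    | add p q h1 h2 => simp only [map_add, h1, h2]
    | monomial j c => simp [dA_monomial, h]
  obtain ⟨s1, s2, s3⟩ := GG_stab δ F
  refine GG_le ⟨Submodule.subset_span ⟨1, s1, map_one _⟩, fun i y hy => ?_, fun y hy => ?_⟩
  · induction hy using Submodule.span_induction with
    | mem x hx =>
      obtain ⟨w, hw, rfl⟩ := hx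
      exact Submodule.subset_span ⟨_, s2 i w hw, hd i w⟩
    | zero => simp
    | add x y _ _ h1 h2 => rw [map_add]; exact add_mem h1 h2
    | smul a x hx h1 =>
      rw [Polynomial.smul_eq_C_mul, dA_C_mul]
      exact add_mem (C_mul_mem _ hx) (C_mul_mem _ h1)
  · induction hy using Submodule.span_induction with
    | mem x hx =>
      obtain ⟨w, hw, rfl⟩ := hx
      exact Submodule.subset_span ⟨_, s3 w hw, sbtrunc_EA φ F w⟩
    | zero => simp
    | add x y _ _ h1 h2 => rw [map_add]; exact add_mem h1 h2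
    | smul a x hx h1 =>
      rw [Polynomial.smul_eq_C_mul, EA_C_mul]
      exact C_mul_mem _ h1

theorem sbtrunc_smul {J : Ideal A} {d : ℕ} {u : Polynomial A} (hu : u ∈ Polynomial.degreeLE A d)
    (h : ∀ j, u.coeff j ∈ J) : u ∈ J • Polynomial.degreeLE A d := by
  rw [u.as_sum_support]
  refine sum_mem fun j hj => ?_
  rw [← Polynomial.smul_X_eq_monomial]
  exact Submodule.smul_mem_smul (h j) (Polynomial.mem_degreeLE.2
    ((Polynomial.degree_X_pow_le j).trans
      ((Polynomial.le_degree_of_mem_supp j hj).trans (Polynomial.mem_degreeLE.1 hu))))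

end

theorem sbtrunc_val {σ : Type} [Fintype σ] [DecidableEq σ] (P : MvPolynomial σ ℂ) :
    (MvPolynomial.aeval (co (σ := σ)) P).1 = fun y => MvPolynomial.eval y P :=
  funext fun z => aeval_val co P z

theorem p_TRUNC (hKRULL : S_KRULL) (hOBIG : S_OBIG) (hCR : S_CR) :
    S_TRUNC := by
  classical
  intro σ _ _ F b g hg H
  have hd : ∀ (i : σ) (P : MvPolynomial σ ℂ), dG i (pb co P) = pb co (pd σ i P) := fun i P => by
    rw [(hCR σ σ co P i).1]
    simp [(hCR σ σ co P i).2]
  set v := Polynomial.aeval (EA F - 1) b (Polynomial.X : Polynomial (MvPolynomial σ ℂ)) with hv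
  have h1 : Polynomial.mapAlgHom (pb co) v ∈ GG dG (pb co F) := by
    obtain ⟨g', e⟩ := hg.exists_left_inv
    have a := C_mul_mem g' H
    rw [sbtrunc_lin, ← mul_assoc, ← map_mul, e, map_one, one_mul] at a
    have c := sbtrunc_semi (Polynomial.mapAlgHom (pb (co (σ := σ)))).toLinearMap (EA F - 1)
      (EA (pb co F) - 1) (fun y => by
        simp only [LinearMap.sub_apply, map_sub, AlgHom.toLinearMap_apply, sbtrunc_EA,
          Module.End.one_apply]) b Polynomial.X
    simp only [AlgHom.toLinearMap_apply] at c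
    rw [hv, c]
    simpa using a
  obtain ⟨n, a, w', e⟩ := Submodule.mem_span_set'.1 (sbtrunc_le (pb co) hd F h1)
  choose w hw hw' using fun k => (w' k).2
  choose α hα using fun k => mk_surj (a k)
  set d := max v.natDegree (univ.sup fun k => (w k).natDegree)
  have v0 : v ∈ Polynomial.degreeLE _ (d : ℕ) :=
    Polynomial.mem_degreeLE.2 (Polynomial.degree_le_of_natDegree_le (le_max_left _ _))
  have w0 : Submodule.span _ (Set.range w) ≤ Polynomial.degreeLE _ (d : ℕ) := by
    refine Submodule.span_le.2 ?_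
    rintro _ ⟨k, rfl⟩
    exact Polynomial.mem_degreeLE.2 (Polynomial.degree_le_of_natDegree_le
      (le_max_of_le_right (le_sup (f := fun k => (w k).natDegree) (mem_univ k))))
  obtain ⟨r, hr, m⟩ := hKRULL _ _ (mx σ) _ _ v
    ⟨_, Polynomial.degreeLE_eq_span_X_pow.symm⟩ v0 w0 fun N => by
    choose P hP using fun k => SN.exists_taylor (α k).2 N
    have s : ∑ k, P k • w k ∈ Submodule.span (MvPolynomial σ ℂ) (Set.range w) :=
      sum_mem fun k _ => Submodule.smul_mem _ _ (Submodule.subset_span ⟨k, rfl⟩)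
    refine Submodule.mem_sup.2 ⟨_, s, v - ∑ k, P k • w k,
      sbtrunc_smul (sub_mem v0 (w0 s)) fun j => hOBIG σ _ N ?_, add_sub_cancel _ _⟩
    have o : ∑ k, (α k - MvPolynomial.aeval co (P k)) * MvPolynomial.aeval co ((w k).coeff j) ∈
        Ord σ N := sum_mem fun k _ => Ideal.mul_mem_right _ _ (by
      have := (hP k).symm
      rw [← sbtrunc_val] at this
      simpa [Ord, SN.Apx] using this)
    rw [← sbtrunc_val]
    refine (SN.Apx.of_eq (mk_eq.1 ?_)).trans o
    have c := congrArg (fun y => Polynomial.coeff y j) e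
    simp only [← hw', ← hα, Polynomial.finsetSum_coeff, Polynomial.coeff_smul,
      Polynomial.coe_mapAlgHom, Polynomial.coeff_map, smul_eq_mul] at c
    simp only [Polynomial.coeff_sub, Polynomial.finsetSum_coeff, Polynomial.coeff_smul,
      smul_eq_mul, map_sub, map_sum, map_mul, sub_mul, sum_sub_distrib]
    exact congrArg (· - _) c.symm
  refine ⟨1 - r, by rw [map_sub, show MvPolynomial.eval 0 r = 0 from hr]; simp, ?_⟩
  rw [MR, sbtrunc_lin, ← Polynomial.smul_eq_C_mul]
  exact Submodule.span_le.2 (by rintro _ ⟨k, rfl⟩; exact hw k) m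

end Pool.Agent.P.MP_9321be_ag.SB
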