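import Pool.Agent.P.MP_9321be_ag.SB.Iface

/-! Step UNIT. -/

set_option autoImplicit false
set_option linter.unusedSectionVars false

namespace Pool.Agent.P.MP_9321be_ag.SB

open Finset Filter Topology SM

section

variable {A : Type} [CommRing A] [Algebra ℂ A]

/-- The substitution `T ↦ u T`. -/
noncomputable def sbunit_Xi (u : A) : Polynomial A →ₐ[A] Polynomial A :=
  Polynomial.aeval (Polynomial.C u * Polynomial.X)

theorem sbunit_mono (u a : A) (j : ℕ) :
    sbunit_Xi u (Polynomial.monomial j a) = Polynomial.monomial j (a * u ^ j) := by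
  rw [sbunit_Xi, Polynomial.aeval_monomial, mul_pow, ← Polynomial.C_pow,
    ← Polynomial.C_mul_X_pow_eq_monomial, Polynomial.algebraMap_eq, Polynomial.C_mul, mul_assoc]

theorem sbunit_pow (δ : Derivation ℂ A A) {u u' : A} (h : u * u' = 1) (j : ℕ) :
    δ (u ^ j) = u' * δ u * (j * u ^ j) := by
  induction j with
  | zero => simp
  | succ j ih =>
    rw [pow_succ, Derivation.leibniz, ih, smul_eq_mul, smul_eq_mul]
    push_cast
    linear_combination (-(u ^ j * δ u)) * h

theorem sbunit_E (u F : A) (y : Polynomial A) :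
    sbunit_Xi u (EA F y) = EA (u * F) (sbunit_Xi u y) := by
  induction y using Polynomial.induction_on' with
  | add p q h1 h2 => simp only [map_add, h1, h2]
  | monomial j a =>
    simp only [EA_monomial, map_sub, sbunit_mono]
    congr 2 <;> ring

theorem sbunit_d (δ : Derivation ℂ A A) {u u' : A} (h : u * u' = 1) (F : A) (y : Polynomial A) :
    sbunit_Xi u (dA δ F y) = dA δ (u * F) (sbunit_Xi u y) -
      Polynomial.C (u' * δ u) * EA (u * F) (sbunit_Xi u y) := by
  induction y using Polynomial.induction_on' with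
  | add p q h1 h2 => simp only [map_add, h1, h2]; ring
  | monomial j a =>
    have e1 : δ a * u ^ j = δ (a * u ^ j) - u' * δ u * (j * (a * u ^ j)) := by
      rw [Derivation.leibniz, sbunit_pow δ h, smul_eq_mul, smul_eq_mul]
      ring
    have e2 : δ F * a * u ^ (j + 1) =
        δ (u * F) * (a * u ^ j) - u' * δ u * (u * F * (a * u ^ j)) := by
      rw [Derivation.leibniz, smul_eq_mul, smul_eq_mul]
      linear_combination (δ u * F * a * u ^ j) * h
    simp only [EA_monomial, dA_monomial, map_sub, sbunit_mono, mul_sub, Polynomial.C_mul_monomial,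
      e1, e2]
    ring

theorem sbunit_aeval (u F : A) (b : Polynomial ℂ) (y : Polynomial A) :
    sbunit_Xi u (Polynomial.aeval (EA F - 1) b y) =
      Polynomial.aeval (EA (u * F) - 1) b (sbunit_Xi u y) := by
  have hp : ∀ (k : ℕ) (y : Polynomial A), sbunit_Xi u (((EA F - 1) ^ k) y) =
      ((EA (u * F) - 1) ^ k) (sbunit_Xi u y) := fun k => by
    induction k with
    | zero => simp
    | succ k ih =>
      intro y
      rw [pow_succ, pow_succ, Module.End.mul_apply, Module.End.mul_apply, ih]
      simp only [LinearMap.sub_apply, Module.End.one_apply, map_sub, sbunit_E]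
  induction b using Polynomial.induction_on' with
  | add p q h1 h2 => simp only [map_add, LinearMap.add_apply, h1, h2]
  | monomial k c =>
    simp only [Polynomial.aeval_monomial, Module.End.mul_apply, Module.algebraMap_end_apply]
    rw [← hp]
    exact (sbunit_Xi u).toLinearMap.map_smul_of_tower c _

end

theorem p_UNIT :
    S_UNIT := by
  intro A ι _ _ δ u u' F g b h H
  obtain ⟨s1, s2, s3⟩ := GG_stab δ (u * F)
  have hs : Stab δ F ((GG δ (u * F)).comap (sbunit_Xi u).toLinearMap) := by
    refine ⟨by simpa using s1, fun i y hy => ?_, fun y hy => ?_⟩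
    · have hy' : sbunit_Xi u y ∈ GG δ (u * F) := hy
      change sbunit_Xi u _ ∈ GG δ (u * F)
      rw [sbunit_d (δ i) h]
      exact sub_mem (s2 i _ hy') (C_mul_mem _ (s3 _ hy'))
    · have hy' : sbunit_Xi u y ∈ GG δ (u * F) := hy
      change sbunit_Xi u _ ∈ GG δ (u * F)
      rw [sbunit_E]
      exact s3 _ hy'
  have h1 : sbunit_Xi u _ ∈ GG δ (u * F) := GG_le hs H
  rw [sbunit_aeval, Polynomial.C_mul_X_eq_monomial, sbunit_mono, pow_one,
    ← Polynomial.C_mul_X_eq_monomial] at h1
  exact h1

end Pool.Agent.P.MP_9321be_ag.SB
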