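import Pool.Agent.P.MP_9321be_ag.SB.Iface
import Pool.Agent.P.MP_9321be_ag.SG.TWEYL

/-! Step WEYL2. -/

set_option autoImplicit false
set_option linter.unusedSectionVars false

namespace Pool.Agent.P.MP_9321be_ag.SB

open Finset Filter Topology SM

theorem sbweyl2_em {n : ℕ} (a : MvPolynomial (Fin n) ℂ) : em a ∈ sp (SG.weyl_Pol n) := by
  induction a using MvPolynomial.induction_on' with
  | monomial a c =>
    rw [em_monomial]
    exact Submodule.smul_mem _ _ (e_mem ⟨rfl, fun i => Nat.cast_nonneg _⟩)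
  | add p q h1 h2 => rw [map_add]; exact add_mem h1 h2

theorem p_WEYL2 (hWUG : S_WUG) :
    S_WEYL2 := by
  intro n f g κ b α r B h hB h0
  let M : Submodule (MvPolynomial (Fin n) ℂ) (NN n) :=
    { carrier := {y | SG.weyl_U (α - 1) r y ∈ SG.weyl_Gd f κ B}
      zero_mem' := by simp
      add_mem' := fun h h' => by simpa using add_mem h h'
      smul_mem' := fun a y h => by
        rw [Set.mem_ofPred_eq, Polynomial.smul_eq_C_mul, SG.weyl_U_C]
        exact SG.weyl_mul (sbweyl2_em a) h }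
  have h1 : Stab (pd (Fin n)) f M := by
    refine ⟨?_, fun i y hy => ?_, fun y hy => ?_⟩
    · change SG.weyl_U (α - 1) r 1 ∈ SG.weyl_Gd f κ B
      rw [show SG.weyl_U (α - 1) r 1 = e (SG.p0 n (α - 1) r) by simp [SG.weyl_U]]
      refine SG.weyl_mem.2 ⟨e_mem fun _ => le_rfl, fun w hw => SG.EE_of_mem
        (mul_mem ?_ hw (e_mem (Set.mem_singleton _)))⟩
      rintro p hp q rfl
      exact h0 _ (by simp [hp.1, SG.p0]) fun i => by simpa [SG.p0] using hp.2 i
    · obtain ⟨T, a1, -, a3⟩ := SG.weyl_op (κ := κ) (B := B) hWUG (α - 1) r (Q := dN f i)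
        (Algebra.subset_adjoin (Or.inr ⟨i, rfl⟩))
      change SG.weyl_U (α - 1) r (dN f i y) ∈ SG.weyl_Gd f κ B
      exact (a1 y).symm ▸ a3 _ hy
    · have h2 := (hWUG n f κ (α - 1) r y).2.1
      simp only [SG.weyl_U_eq] at h2
      change SG.weyl_U (α - 1) r (EN f y) ∈ SG.weyl_Gd f κ B
      rw [h2]
      refine sub_mem (SG.weyl_mem.2 ⟨SG.Cl.Dp (A := SG.weyl_Pos n) (fun p hp g _ i =>
        le_add_of_le_of_nonneg (hp i) (Nat.cast_nonneg _)) kk hy.1, fun w hw => ?_⟩)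
        (Submodule.smul_mem _ _ hy)
      rw [← sub_eq_iff_eq_add'.2 (SG.weyl_leib kk w _)]
      exact sub_mem (SG.EE_Dp SG.weyl_cl hB kk (hy.2 w hw)) (hy.2 _ (dg_mem _ hw))
  have h2 := (SG.weyl_mem.1 (GG_le h1 h)).2 (e 0) (e_mem ⟨rfl, fun _ => le_rfl⟩)
  have h3 := SG.weyl_aeval (f := f) (κ := κ) hWUG (α - 1) r (b.comp (Polynomial.X - 1))
    (Polynomial.C g * Polynomial.X)
  have h4 : SG.weyl_U (α - 1) r (Polynomial.C g * Polynomial.X) = em g * e (SG.p0 n α r) := by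
    rw [SG.weyl_U_C]
    simp [SG.weyl_U, ← e_add, SG.p0]
  simp only [Polynomial.aeval_comp, map_sub, Polynomial.aeval_X, map_one, Complex.ofReal_sub,
    Complex.ofReal_one, sub_sub, sub_add_cancel, h4] at h3
  rw [Polynomial.aeval_comp, map_sub, Polynomial.aeval_X, Polynomial.aeval_C, ← h3]
  simpa [EN_eq] using h2

end Pool.Agent.P.MP_9321be_ag.SB
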