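import Pool.Agent.P.MP_9321be_ag.SB.TM0
import Pool.Agent.P.MP_9321be_ag.SB.TSUS
import Pool.Agent.P.MP_9321be_ag.SB.THOM
import Pool.Agent.P.MP_9321be_ag.SB.TUNIT
import Pool.Agent.P.MP_9321be_ag.SB.TKRULL
import Pool.Agent.P.MP_9321be_ag.SB.TOBIG
import Pool.Agent.P.MP_9321be_ag.SB.TCR
import Pool.Agent.P.MP_9321be_ag.SB.TTRUNC
import Pool.Agent.P.MP_9321be_ag.SB.TEQV
import Pool.Agent.P.MP_9321be_ag.SB.TWEYL2
import Pool.Agent.P.MP_9321be_ag.SB.TREN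
import Pool.Agent.P.MP_9321be_ag.SB.Fin

/-!
The strong monodromy conjecture for stably non-degenerate polynomials.
-/

set_option autoImplicit false

namespace Pool.Agent.P.MP_9321be_ag.SB

open MvPolynomial Filter Topology

theorem strong {n : ℕ} {τ κ : Type} [Fintype τ] [Fintype κ] {f : MvPolynomial (Fin n) ℂ}
    (hf : f ≠ 0) (h0 : coeff 0 f = 0) {F : MvPolynomial τ ℂ} (hn : ND.Nondeg F)
    (h : SN.Eqv (SN.sq κ f) F) : SM.StrongMonodromyConjecture f :=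
  main (p_WEYL2 SG.s_WU) (p_M0 SG.s_WN) p_SUS
    (p_EQV p_HOM p_UNIT (p_TRUNC p_KRULL p_OBIG p_CR) p_CR) p_REN hf h0 hn h

theorem conjecture {n : ℕ} {τ κ : Type} [Fintype τ] [Fintype κ] {f : MvPolynomial (Fin n) ℂ}
    (hf : f ≠ 0) (h0 : coeff 0 f = 0) {F : MvPolynomial τ ℂ} (hn : ND.Nondeg F)
    {Φ : (Fin n ⊕ κ → ℂ) → τ → ℂ} {u : (Fin n ⊕ κ → ℂ) → ℂ} (hΦ : AnalyticAt ℂ Φ 0)
    (hΦ0 : Φ 0 = 0) (hd : Function.Bijective (fderiv ℂ Φ 0)) (hu : AnalyticAt ℂ u 0)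
    (hu0 : u 0 ≠ 0) (h : ∀ᶠ y in 𝓝 0, eval (Φ y) F =
      u y * (eval (fun i => y (Sum.inl i)) f + ∑ j, y (Sum.inr j) ^ 2)) :
    SM.StrongMonodromyConjecture f :=
  strong hf h0 hn
    (SN.Eqv.of_bij hΦ hΦ0 hd hu hu0 (h.mono fun y hy => by rw [hy, SN.eval_sq]; rfl))

end Pool.Agent.P.MP_9321be_ag.SB
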