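import Pool.Agent.P.MP_9321be_ag.SG.Iface
import Pool.Agent.P.MP_9321be_ag.SN.Tay

/-!
Microlocal functional equations over a ring with derivations, analytic germs.
-/

set_option autoImplicit false
set_option linter.unusedSectionVars false

namespace Pool.Agent.P.MP_9321be_ag.SB

open Finset Filter Topology Asymptotics

section

variable {A : Type} [CommRing A] [Algebra ℂ A] {ι : Type}

/-- The derivative along `δ` on `A[T] e ^ (- T F)`. -/
noncomputable def dA (δ : Derivation ℂ A A) (F : A) : Module.End ℂ (Polynomial A) :=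
  Polynomial.lsum (R := ℂ) (fun j => (Polynomial.monomial j).restrictScalars ℂ ∘ₗ δ.toLinearMap) -
  LinearMap.mulLeft ℂ (Polynomial.C (δ F) * Polynomial.X)

/-- The operator `s` on `A[T] e ^ (- T F)`. -/
noncomputable def EA (F : A) : Module.End ℂ (Polynomial A) :=
  LinearMap.mulLeft ℂ Polynomial.X ∘ₗ Polynomial.derivative.restrictScalars ℂ -
  LinearMap.mulLeft ℂ (Polynomial.C F * Polynomial.X)

theorem dA_monomial (δ : Derivation ℂ A A) (F : A) (j : ℕ) (a : A) :
    dA δ F (Polynomial.monomial j a) = Polynomial.monomial j (δ a) -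
      Polynomial.monomial (j + 1) (δ F * a) := by
  simp [dA, Polynomial.sum_monomial_index, Polynomial.X_mul_monomial, Polynomial.C_mul_monomial]

theorem EA_apply (F : A) (y : Polynomial A) :
    EA F y = Polynomial.X * Polynomial.derivative y - Polynomial.C F * Polynomial.X * y := rfl

theorem EA_monomial (F : A) (j : ℕ) (a : A) :
    EA F (Polynomial.monomial j a) = Polynomial.monomial j (j * a) -
      Polynomial.monomial (j + 1) (F * a) := by
  have : (Polynomial.X : Polynomial A) * Polynomial.derivative (Polynomial.monomial j a) =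
      Polynomial.monomial j (j * a) := by
    cases j with
    | zero => simp
    | succ j =>
      rw [Polynomial.derivative_monomial_succ, Polynomial.X_mul_monomial, mul_comm]
      simp
  rw [EA_apply, this, mul_assoc, Polynomial.X_mul_monomial, Polynomial.C_mul_monomial]

theorem dA_C_mul (δ : Derivation ℂ A A) (F a : A) (y : Polynomial A) :
    dA δ F (Polynomial.C a * y) = Polynomial.C (δ a) * y + Polynomial.C a * dA δ F y := by
  induction y using Polynomial.induction_on' with
  | add p q h1 h2 => simp only [mul_add, map_add, h1, h2]; ring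
  | monomial j c =>
    simp only [Polynomial.C_mul_monomial, dA_monomial, mul_sub, Derivation.leibniz, smul_eq_mul,
      map_add]
    rw [mul_comm c, mul_left_comm (δ F)]
    ring

theorem dA_X_mul (δ : Derivation ℂ A A) (F : A) (y : Polynomial A) :
    dA δ F (Polynomial.X * y) = Polynomial.X * dA δ F y := by
  induction y using Polynomial.induction_on' with
  | add p q h1 h2 => simp only [mul_add, map_add, h1, h2]
  | monomial j c => simp only [Polynomial.X_mul_monomial, dA_monomial, mul_sub]

theorem EA_C_mul (F a : A) (y : Polynomial A) :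
    EA F (Polynomial.C a * y) = Polynomial.C a * EA F y := by
  simp only [EA_apply, Polynomial.derivative_C_mul]
  ring

theorem EA_X_mul (F : A) (y : Polynomial A) :
    EA F (Polynomial.X * y) = Polynomial.X * (EA F y + y) := by
  simp only [EA_apply, Polynomial.derivative_mul, Polynomial.derivative_X]
  ring

/-- The submodules that contain `1` and are stable under the operators. -/
def Stab (δ : ι → Derivation ℂ A A) (F : A) (M : Submodule A (Polynomial A)) : Prop :=
  1 ∈ M ∧ (∀ i, ∀ y ∈ M, dA (δ i) F y ∈ M) ∧ ∀ y ∈ M, EA F y ∈ M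

/-- The module generated by `1`. -/
noncomputable def GG (δ : ι → Derivation ℂ A A) (F : A) : Submodule A (Polynomial A) := sInf {M | Stab δ F M}

theorem GG_le {δ : ι → Derivation ℂ A A} {F : A} {M : Submodule A (Polynomial A)}
    (h : Stab δ F M) : GG δ F ≤ M := sInf_le h

theorem GG_stab (δ : ι → Derivation ℂ A A) (F : A) : Stab δ F (GG δ F) :=
  ⟨Submodule.mem_sInf.2 fun _ h => h.1,
    fun i y hy => Submodule.mem_sInf.2 fun _ h => h.2.1 i y (GG_le h hy),
    fun y hy => Submodule.mem_sInf.2 fun _ h => h.2.2 y (GG_le h hy)⟩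

theorem C_mul_mem {M : Submodule A (Polynomial A)} (a : A) {y : Polynomial A} (h : y ∈ M) :
    Polynomial.C a * y ∈ M := Polynomial.smul_eq_C_mul (R := A) a ▸ M.smul_mem a h

/-- The microlocal functional equation. -/
def MR (δ : ι → Derivation ℂ A A) (F : A) (b : Polynomial ℂ) (g : A) : Prop :=
  Polynomial.aeval (EA F - 1) b (Polynomial.C g * Polynomial.X) ∈ GG δ F

end

variable {σ : Type} [Fintype σ] [DecidableEq σ]

/-- The partial derivatives. -/
noncomputable abbrev pd (σ : Type) : σ → Derivation ℂ (MvPolynomial σ ℂ) (MvPolynomial σ ℂ) :=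
  fun i => MvPolynomial.pderiv i

/-- The local microlocal functional equation of a polynomial. -/
def MRel (F : MvPolynomial σ ℂ) (b : Polynomial ℂ) : Prop :=
  ∃ g, MvPolynomial.eval 0 g ≠ 0 ∧ MR (pd σ) F b g

theorem dN_eq {n : ℕ} (f : MvPolynomial (Fin n) ℂ) (i : Fin n) : SM.dN f i = dA (pd _ i) f := rfl

theorem EN_eq {n : ℕ} (f : MvPolynomial (Fin n) ℂ) : SM.EN f = EA f := rfl

variable (σ)

/-- Functions that are analytic at the origin. -/
def An : Subalgebra ℂ ((σ → ℂ) → ℂ) where
  carrier := {a | AnalyticAt ℂ a 0}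
  mul_mem' := AnalyticAt.mul
  add_mem' := AnalyticAt.add
  algebraMap_mem' _ := analyticAt_const

noncomputable instance : CommRing (An σ) := Subalgebra.toCommRing (An σ)

noncomputable instance : Algebra ℂ (An σ) := Subalgebra.algebra (An σ)

/-- Functions that are `O(|z| ^ N)`. -/
def Ord (N : ℕ) : Ideal (An σ) where
  carrier := {a | SN.Apx N a.1 0}
  zero_mem' := SN.Apx.of_eq (by simp)
  add_mem' h h' := (IsBigO.add h h').congr_left fun _ => by simp
  smul_mem' c a h := by
    have := (c.2.continuousAt.isBigO_one (F := ℝ)).mul h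
    simpa [SN.Apx] using this

/-- Functions that vanish near the origin. -/
def Nul : Ideal (An σ) where
  carrier := {a | ∀ᶠ z in 𝓝 0, a.1 z = 0}
  zero_mem' := by simp
  add_mem' h h' := (h.and h').mono fun z e => by simp [e.1, e.2]
  smul_mem' c a h := h.mono fun z e => by simp [e]

/-- Analytic germs. -/
def Ge : Type := An σ ⧸ Nul σ

noncomputable instance : CommRing (Ge σ) := Ideal.Quotient.commRing (Nul σ)

noncomputable instance : Algebra ℂ (Ge σ) := Ideal.Quotient.algebra ℂ

variable {σ}

/-- The germ of a function. -/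
noncomputable def mk : An σ →ₐ[ℂ] Ge σ := Ideal.Quotient.mkₐ ℂ (Nul σ)

theorem mk_surj : Function.Surjective (mk : An σ → Ge σ) := Ideal.Quotient.mk_surjective

theorem mk_eq {a b : An σ} : mk a = mk b ↔ ∀ᶠ z in 𝓝 0, a.1 z = b.1 z :=
  Ideal.Quotient.eq.trans (eventually_congr (Eventually.of_forall fun _ => sub_eq_zero))

/-- The partial derivative of a function. -/
noncomputable def dF (i : σ) (a : An σ) : An σ :=
  ⟨fun z => fderiv ℂ a.1 z (Pi.single i 1),
    ((ContinuousLinearMap.apply ℂ ℂ (Pi.single i 1 : σ → ℂ)).analyticAt _).comp a.2.fderiv⟩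

theorem ev_diff (a : An σ) : ∀ᶠ z in 𝓝 0, DifferentiableAt ℂ a.1 z :=
  (AnalyticAt.eventually_analyticAt a.2).mono fun _ h => h.differentiableAt

/-- The partial derivative as a linear map to germs. -/
noncomputable def dL (i : σ) : An σ →ₗ[ℂ] Ge σ where
  toFun a := mk (dF i a)
  map_add' a b := by
    rw [← map_add, mk_eq]
    filter_upwards [ev_diff a, ev_diff b] with z h1 h2
    simp [dF, fderiv_add h1 h2]
  map_smul' c a := by
    rw [RingHom.id_apply, ← map_smul, mk_eq]
    filter_upwards [ev_diff a] with z h1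
    simp [dF, fderiv_const_smul h1]

theorem dL_congr (i : σ) {a b : An σ} (h : mk a = mk b) : dL i a = dL i b :=
  mk_eq.2 ((EventuallyEq.fderiv (𝕜 := ℂ) (mk_eq.1 h)).mono fun z e => by simp [dF, e])

/-- The partial derivative of a germ as a linear map. -/
noncomputable def dM (i : σ) : Ge σ →ₗ[ℂ] Ge σ where
  toFun a := dL i (mk_surj a).choose
  map_add' a b := by
    rw [← map_add]
    exact dL_congr i (by rw [map_add, (mk_surj _).choose_spec, (mk_surj _).choose_spec,
      (mk_surj _).choose_spec])
  map_smul' c a := by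
    rw [RingHom.id_apply, ← map_smul]
    exact dL_congr i (by rw [map_smul, (mk_surj _).choose_spec, (mk_surj _).choose_spec])

theorem dM_mk (i : σ) (a : An σ) : dM i (mk a) = mk (dF i a) :=
  dL_congr i (mk_surj _).choose_spec

/-- The partial derivative of a germ. -/
noncomputable def dG (i : σ) : Derivation ℂ (Ge σ) (Ge σ) where
  toLinearMap := dM i
  map_one_eq_zero' := by
    rw [← map_one mk, dM_mk, ← map_zero mk, mk_eq]
    exact Eventually.of_forall fun z => by simp [dF]
  leibniz' a b := by
    obtain ⟨a, rfl⟩ := mk_surj a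
    obtain ⟨b, rfl⟩ := mk_surj b
    rw [← map_mul, dM_mk, dM_mk, dM_mk, smul_eq_mul, smul_eq_mul, ← map_mul, ← map_mul,
      ← map_add, mk_eq]
    filter_upwards [ev_diff a, ev_diff b] with z h1 h2
    have := fderiv_mul h1 h2
    exact (congrArg (fun L : (σ → ℂ) →L[ℂ] ℂ => L (Pi.single i 1)) this).trans (by simp [dF])

theorem dG_mk (i : σ) (a : An σ) : dG i (mk a) = mk (dF i a) := dM_mk i a

/-- The germ of a polynomial in analytic functions. -/
noncomputable def pb {τ : Type} (Ψ : τ → An σ) : MvPolynomial τ ℂ →ₐ[ℂ] Ge σ :=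
  mk.comp (MvPolynomial.aeval Ψ)

theorem aeval_val {τ : Type} (Ψ : τ → An σ) (P : MvPolynomial τ ℂ) (z : σ → ℂ) :
    (MvPolynomial.aeval Ψ P).1 z = MvPolynomial.eval (fun j => (Ψ j).1 z) P := by
  induction P using MvPolynomial.induction_on with
  | C c => simp
  | add p q h1 h2 => simp [h1, h2]
  | mul_X p j h => simp [h]

/-- The coordinate functions. -/
def co (i : σ) : An σ :=
  ⟨fun z => z i, (ContinuousLinearMap.proj (R := ℂ) (φ := fun _ : σ => ℂ) i).analyticAt 0⟩

/-- The ideal of the origin. -/
noncomputable def mx (σ : Type) : Ideal (MvPolynomial σ ℂ) :=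
  RingHom.ker (MvPolynomial.eval (0 : σ → ℂ))

end Pool.Agent.P.MP_9321be_ag.SB
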