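import Pool.Agent.P.MP_9321be_ag.SB.Base

/-!
The steps from non-degenerate to stably non-degenerate polynomials.
-/

set_option autoImplicit false
set_option linter.unusedSectionVars false

namespace Pool.Agent.P.MP_9321be_ag.SB

open Finset Filter Topology SM

/-- The embedding of the general case. -/
abbrev S_WUG : Prop := SG.S_WU

-- deps: WN
def S_M0 : Prop :=
  ∀ (n : ℕ) (f : MvPolynomial (Fin n) ℂ) (b : Polynomial ℂ), BSRel f b → MRel f b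

-- deps:
def S_SUS : Prop :=
  ∀ (σ ρ : Type) [Fintype σ] [DecidableEq σ] [Fintype ρ] [DecidableEq ρ] (f : MvPolynomial σ ℂ)
    (b : Polynomial ℂ), MRel f b →
    MRel (SN.hyp ρ f) (b.comp (Polynomial.X + Polynomial.C (Fintype.card ρ : ℂ)))

-- deps:
def S_HOM : Prop :=
  ∀ (A A' ι ι' : Type) [CommRing A] [Algebra ℂ A] [CommRing A'] [Algebra ℂ A'] [Fintype ι']
    (δ : ι → Derivation ℂ A A) (δ' : ι' → Derivation ℂ A' A') (φ : A →ₐ[ℂ] A') (c : ι → ι' → A'),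
    (∀ j a, φ (δ j a) = ∑ i, c j i * δ' i (φ a)) →
    ∀ (F g : A) (b : Polynomial ℂ), MR δ F b g → MR δ' (φ F) b (φ g)

-- deps:
def S_UNIT : Prop :=
  ∀ (A ι : Type) [CommRing A] [Algebra ℂ A] (δ : ι → Derivation ℂ A A) (u u' F g : A)
    (b : Polynomial ℂ), u * u' = 1 → MR δ F b g → MR δ (u * F) b (g * u)

-- deps:
def S_KRULL : Prop :=
  ∀ (A M : Type) [CommRing A] [IsNoetherianRing A] [AddCommGroup M] [Module A M] (I : Ideal A)
    (M0 N : Submodule A M) (v : M), M0.FG → v ∈ M0 → N ≤ M0 → (∀ k : ℕ, v ∈ N ⊔ I ^ k • M0) →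
    ∃ r ∈ I, (1 - r) • v ∈ N

-- deps:
def S_OBIG : Prop :=
  ∀ (σ : Type) [Fintype σ] (P : MvPolynomial σ ℂ) (N : ℕ),
    SN.Apx N (fun y => MvPolynomial.eval y P) 0 → P ∈ mx σ ^ N

-- deps:
def S_CR : Prop :=
  ∀ (σ τ : Type) [Fintype σ] [DecidableEq σ] [Fintype τ] (Ψ : τ → An σ) (P : MvPolynomial τ ℂ)
    (i : σ), dG i (pb Ψ P) = ∑ j, pb Ψ (MvPolynomial.pderiv j P) * dG i (mk (Ψ j)) ∧
      ∀ j, dG i (mk (co j)) = if i = j then 1 else 0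

-- deps: KRULL OBIG CR
def S_TRUNC : Prop :=
  ∀ (σ : Type) [Fintype σ] [DecidableEq σ] (F : MvPolynomial σ ℂ) (b : Polynomial ℂ) (g : Ge σ),
    IsUnit g → MR dG (pb co F) b g → MRel F b

-- deps: HOM UNIT TRUNC CR
def S_EQV : Prop :=
  ∀ (σ τ : Type) [Fintype σ] [DecidableEq σ] [Fintype τ] [DecidableEq τ] (G : MvPolynomial σ ℂ)
    (F : MvPolynomial τ ℂ) (b : Polynomial ℂ), SN.Eqv G F → MRel G b → MRel F b

-- deps: WUG
-- imports: Pool.Agent.P.MP_9321be_ag.SG.TWEYL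
def S_WEYL2 : Prop :=
  ∀ (n : ℕ) (f g : MvPolynomial (Fin n) ℂ) (h : Fin n → ℝ) (b : Polynomial ℂ) (α r : ℝ)
    (B : Set (L n)), MR (pd (Fin n)) f b g → SG.Cl f h B →
    (∀ p : L n, p.1 = α - 1 → (∀ i, 1 ≤ p.2.1 i) → p ∈ B) →
    Polynomial.aeval (SG.Dp f h kk) (b.comp (Polynomial.X - Polynomial.C (α : ℂ)))
      (em g * e (SG.p0 n α r)) ∈ SG.EE f h TT B

-- deps:
-- imports: Pool.Agent.P.MP_9321be_ag.SN.Sq
def S_REN : Prop :=
  ∀ (σ τ : Type) [Fintype σ] [Fintype τ] (e : σ ≃ τ) (F : MvPolynomial σ ℂ), ND.Nondeg F →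
    ND.Nondeg (MvPolynomial.rename e F) ∧ SN.Eqv F (MvPolynomial.rename e F)

end Pool.Agent.P.MP_9321be_ag.SB
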