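import Pool.Agent.P.MP_9321be_ag.SB.Iface

/-! Step M0. -/

set_option autoImplicit false
set_option linter.unusedSectionVars false

namespace Pool.Agent.P.MP_9321be_ag.SB

open Finset Filter Topology SM

section

variable {A ι : Type} [CommRing A] [Algebra ℂ A]

lemma sbm0_pow (F : A) (j : ℕ) (y : Polynomial A) :
    Polynomial.X * (EA F ^ j) y = ((EA F - 1) ^ j) (Polynomial.X * y) := by
  induction j with
  | zero => rfl
  | succ j ih =>
    rw [pow_succ', pow_succ', Module.End.mul_apply, Module.End.mul_apply, ← ih,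
      LinearMap.sub_apply, EA_X_mul, Module.End.one_apply]
    ring

lemma sbm0_aeval (F : A) (b : Polynomial ℂ) (y : Polynomial A) :
    Polynomial.X * Polynomial.aeval (EA F) b y =
      Polynomial.aeval (EA F - 1) b (Polynomial.X * y) := by
  induction b using Polynomial.induction_on' with
  | add p q h1 h2 => simp only [map_add, LinearMap.add_apply, mul_add, h1, h2]
  | monomial j c =>
    simp only [Polynomial.aeval_monomial, Module.End.mul_apply, Module.algebraMap_end_apply,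
      mul_smul_comm, sbm0_pow]

lemma sbm0_mem (δ : ι → Derivation ℂ A A) (F : A) (j : ℕ) {y : Polynomial A} (hy : y ∈ GG δ F) :
    ((EA F - 1) ^ j) y ∈ GG δ F := by
  induction j with
  | zero => exact hy
  | succ j ih =>
    rw [pow_succ', Module.End.mul_apply, LinearMap.sub_apply]
    exact sub_mem ((GG_stab δ F).2.2 _ ih) ih

end

lemma sbm0_AN {n : ℕ} (f : MvPolynomial (Fin n) ℂ) {Q : Module.End ℂ (NN n)} (hQ : Q ∈ AN f) :
    (∀ y, Polynomial.X * Q y = Q (Polynomial.X * y)) ∧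
      ∀ y ∈ GG (pd _) f, Q y ∈ GG (pd _) f := by
  induction hQ using Algebra.adjoin_induction with
  | mem x hx =>
    rcases hx with ⟨i, rfl⟩ | ⟨i, rfl⟩
    · exact ⟨fun y => mul_left_comm _ _ _, fun y hy => C_mul_mem _ hy⟩
    · exact ⟨fun y => (dA_X_mul _ _ y).symm, (GG_stab _ f).2.1 i⟩
  | algebraMap c =>
    exact ⟨fun y => mul_smul_comm c _ y, fun y hy => (GG (pd _) f).smul_of_tower_mem c hy⟩
  | add x y _ _ h1 h2 =>
    exact ⟨fun z => by rw [LinearMap.add_apply, LinearMap.add_apply, mul_add, h1.1, h2.1],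
      fun z hz => add_mem (h1.2 z hz) (h2.2 z hz)⟩
  | mul x y _ _ h1 h2 =>
    exact ⟨fun z => by rw [Module.End.mul_apply, Module.End.mul_apply, h1.1, h2.1],
      fun z hz => h1.2 _ (h2.2 z hz)⟩

theorem p_M0 (hWN : S_WN) :
    S_M0 := by
  intro n f b hb
  obtain ⟨g, hg, N, Q, hQ, h⟩ := hWN n f b hb
  refine ⟨g, hg, ?_⟩
  rw [MR, mul_comm, ← sbm0_aeval, ← EN_eq, h, mul_sum]
  refine sum_mem fun j _ => ?_
  rw [EN_eq, sbm0_pow, (sbm0_AN f (hQ j)).1]
  refine sbm0_mem _ _ _ ((sbm0_AN f (hQ j)).2 _ ?_)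
  have h1 := neg_mem ((GG_stab (pd _) f).2.2 _ (GG_stab (pd _) f).1)
  rwa [EA_apply, Polynomial.derivative_one, mul_zero, zero_sub, neg_neg, mul_one, mul_comm] at h1

end Pool.Agent.P.MP_9321be_ag.SB
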