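import Pool.Agent.P.MP_9321be_ag.SB.Iface
import Pool.Agent.P.MP_9321be_ag.SN.Sq

/-! Step REN. -/

set_option autoImplicit false
set_option linter.unusedSectionVars false

namespace Pool.Agent.P.MP_9321be_ag.SB

open Finset Filter Topology SM

theorem p_REN :
    S_REN := by
  classical
  intro σ τ _ _ e F hn
  refine ⟨fun w hw x hx => ?_, SN.Eqv.of_lin (LinearEquiv.funCongrLeft ℂ ℂ e.symm) fun y => ?_⟩
  · obtain ⟨i, hi⟩ := hn (w ∘ e) (fun _ => hw _) (x ∘ e) fun _ => hx _
    refine ⟨e i, ?_⟩
    rw [SN.facePoly_eq, SN.fil_rename _ e.injective, MvPolynomial.pderiv_rename e.injective,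
      MvPolynomial.eval_rename]
    rw [SN.facePoly_eq] at hi
    convert hi using 3
    refine SN.fil_congr fun d _ => ?_
    rw [MvPolynomial.support_rename_of_injective e.injective, Finset.forall_mem_image]
    simp only [SN.wt_mapDomain, Function.comp_apply]
  · rw [MvPolynomial.eval_rename]
    congr 2
    funext i
    simp

end Pool.Agent.P.MP_9321be_ag.SB
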